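import Pool.Agent.helper20.SOL.Spec

/-!
# Row AL2 (MP_cad530_co): connectivity of type A
-/

set_option autoImplicit false

namespace Pool.Agent.SOL

open Pool.Agent.helper54.SOG Finset

open scoped BigOperators

theorem AL2_cnt {n k : ℕ} {x : Vec n} (hx : x ∈ VA n k) (c : ℤ) (hc : |c| ≤ 1) :
    2 * (((univ.filter fun p => x p = c).card : ℕ) : ℤ) =
      (2 - 2 * c ^ 2) * n + (3 * c ^ 2 - 2) * (2 * k) := by
  obtain ⟨h1, h2, h3⟩ := hx
  have h4 : ∀ p, 2 * (if x p = c then (1 : ℤ) else 0) =
      (2 - 2 * c ^ 2) + (3 * c ^ 2 - 2) * (x p * x p) + c * x p := by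
    intro p
    have h5 := abs_le.1 (h1 p)
    have h6 := abs_le.1 hc
    have h7 : x p = -1 ∨ x p = 0 ∨ x p = 1 := by omega
    have h8 : c = -1 ∨ c = 0 ∨ c = 1 := by omega
    rcases h7 with h7 | h7 | h7 <;> rcases h8 with h8 | h8 | h8 <;> rw [h7, h8] <;> norm_num
  rw [Finset.natCast_card_filter, Finset.mul_sum, Finset.sum_congr rfl fun p _ => h4 p,
    Finset.sum_add_distrib, Finset.sum_add_distrib, ← Finset.mul_sum, ← Finset.mul_sum, h2,
    Finset.sum_const, Finset.card_univ, Fintype.card_fin]
  have h5 : ∑ p, x p * x p = 2 * k := h3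
  rw [h5, nsmul_eq_mul]
  ring

theorem AL2_swp {n k : ℕ} {x : Vec n} (hx : x ∈ VA n k) (a b : Fin n) : swp a b x ∈ VA n k := by
  obtain ⟨h1, h2, h3⟩ := hx
  refine ⟨fun i => h1 _, ?_, ?_⟩
  · exact (Equiv.sum_comp (Equiv.swap a b) x).trans h2
  · exact (Equiv.sum_comp (Equiv.swap a b) fun i => x i * x i).trans h3

theorem AL2 : AL2_stmt := by
  intro n k M g i j u w hij hg
  have key : ∀ N : ℕ, ∀ x ∈ VA n k, ∀ x' ∈ VA n k, x i = u → x j = w → x' i = u → x' j = w →
      (univ.filter fun p => x p ≠ x' p).card = N → g x = g x' := by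
    intro N
    induction N using Nat.strong_induction_on with
    | _ N ih =>
    intro x hx x' hx' hxi hxj hxi' hxj' hN
    by_cases hall : ∀ p, x p = x' p
    · rw [funext hall]
    push Not at hall
    obtain ⟨a, ha⟩ := hall
    obtain ⟨b, hb1, hb2⟩ : ∃ b, x b = x' a ∧ x' b ≠ x' a := by
      by_contra hcon
      push Not at hcon
      have hsub : (univ.filter fun p => x p = x' a) ⊂ univ.filter fun p => x' p = x' a := by
        refine (Finset.ssubset_iff_of_subset ?_).2 ⟨a, ?_, ?_⟩
        · intro p hp
          rw [mem_filter] at hp ⊢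
          exact ⟨hp.1, hcon p hp.2⟩
        · rw [mem_filter]
          exact ⟨mem_univ _, rfl⟩
        · rw [mem_filter]
          exact fun h => ha h.2
      have h1 := Finset.card_lt_card hsub
      have h2 := AL2_cnt hx (x' a) (hx'.1 a)
      have h3 := AL2_cnt hx' (x' a) (hx'.1 a)
      rw [← h3] at h2
      omega
    have hai : a ≠ i := by
      rintro rfl
      exact ha (hxi.trans hxi'.symm)
    have haj : a ≠ j := by
      rintro rfl
      exact ha (hxj.trans hxj'.symm)
    have hbi : b ≠ i := by
      rintro rfl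
      exact hb2 (hxi'.trans (hxi.symm.trans hb1))
    have hbj : b ≠ j := by
      rintro rfl
      exact hb2 (hxj'.trans (hxj.symm.trans hb1))
    have hab : a ≠ b := by
      rintro rfl
      exact hb2 rfl
    have hyi : swp a b x i = x i := by
      show x (Equiv.swap a b i) = x i
      rw [Equiv.swap_apply_of_ne_of_ne (Ne.symm hai) (Ne.symm hbi)]
    have hyj : swp a b x j = x j := by
      show x (Equiv.swap a b j) = x j
      rw [Equiv.swap_apply_of_ne_of_ne (Ne.symm haj) (Ne.symm hbj)]
    have hya : swp a b x a = x' a := by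
      show x (Equiv.swap a b a) = x' a
      rw [Equiv.swap_apply_left, hb1]
    have hlt : (univ.filter fun p => swp a b x p ≠ x' p).card < N := by
      rw [← hN]
      apply Finset.card_lt_card
      refine (Finset.ssubset_iff_of_subset ?_).2 ⟨a, ?_, ?_⟩
      · intro p hp
        rw [mem_filter] at hp ⊢
        refine ⟨hp.1, ?_⟩
        by_cases hpa : p = a
        · rw [hpa]
          exact ha
        · by_cases hpb : p = b
          · rw [hpb, hb1]
            exact Ne.symm hb2
          · have h1 : swp a b x p = x p := by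
              show x (Equiv.swap a b p) = x p
              rw [Equiv.swap_apply_of_ne_of_ne hpa hpb]
            rw [h1] at hp
            exact hp.2
      · rw [mem_filter]
        exact ⟨mem_univ _, ha⟩
      · rw [mem_filter]
        exact fun h => h.2 hya
    have h1 := ih _ hlt (swp a b x) (AL2_swp hx a b) x' hx' (hyi.trans hxi) (hyj.trans hxj) hxi'
      hxj' rfl
    rw [← h1]
    exact (hg x hx hxi hxj a b hab hai haj hbi hbj).symm
  intro x hx x' hx' h1 h2 h3 h4
  exact key _ x hx x' hx' h1 h2 h3 h4 rfl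

end Pool.Agent.SOL
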