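import Pool.Agent.helper20.SOL.SpecN

/-!
# Row sol:CO: the two coincidences of type E
-/

set_option autoImplicit false

namespace Pool.Agent.SOL

open Pool.Agent.helper54.SOG Finset

open scoped BigOperators

theorem CO_inj {x y : Vec 8} (h : x + x = y + y) : x = y := by
  funext i
  have h1 : x i + x i = y i + y i := congrFun h i
  omega

theorem CO_iso {S T : Set (Vec 8)} (h : ∀ x, x ∈ T ↔ ∃ y ∈ S, x = y + y) :
    Nonempty (gph S ≃g gph T) := by
  have hmem : ∀ z : Vec 8, z + z ∈ T ↔ z ∈ S := by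
    intro z
    rw [h]
    constructor
    · rintro ⟨y, hy, hzy⟩
      rwa [CO_inj hzy]
    · intro hz
      exact ⟨z, hz, rfl⟩
  let f : S → T := fun y => ⟨y.1 + y.1, (hmem y.1).2 y.2⟩
  have hf : Function.Bijective f := by
    constructor
    · intro y y' hyy
      exact Subtype.ext (CO_inj (congrArg Subtype.val hyy))
    · rintro ⟨x, hx⟩
      obtain ⟨y, hy, rfl⟩ := (h x).1 hx
      exact ⟨⟨y, hy⟩, rfl⟩
  have hsub : ∀ x y : Vec 8, (x + x) - (y + y) ∈ T ↔ x - y ∈ S := by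
    intro x y
    rw [show (x + x) - (y + y) = (x - y) + (x - y) by abel, hmem]
  refine ⟨⟨Equiv.ofBijective f hf, ?_⟩⟩
  intro a b
  unfold gph
  rw [SimpleGraph.fromRel_adj, SimpleGraph.fromRel_adj]
  have h1 : (Equiv.ofBijective f hf) a ≠ (Equiv.ofBijective f hf) b ↔ a ≠ b :=
    (Equiv.ofBijective f hf).injective.ne_iff
  rw [h1]
  exact and_congr Iff.rfl (or_congr (hsub a.1 b.1) (hsub b.1 a.1))

theorem CO (hELB : ELB_stmt) (hME8a : ME8a_stmt) (hME8d : ME8d_stmt) (hME6a : ME6a_stmt)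
    (hME6b : ME6b_stmt) : CO_stmt := by
  have h8 : ∀ y : Vec 8, y ∈ VE R8 2 ↔ y ∈ XE8 2 := fun y =>
    ⟨(hELB.2.2.1 2 y).1, hME8a 2 (by norm_num) (by norm_num) y⟩
  have h6 : ∀ y : Vec 8, y ∈ VE R6 1 ↔ y ∈ R6 := fun y =>
    ⟨(hELB.2.2.1 1 y).2.2, hME6a 1 (by norm_num) (by norm_num) y⟩
  constructor
  · apply CO_iso
    intro x
    rw [hME8d]
    simp only [h8]
  · apply CO_iso
    intro x
    rw [hME6b.1]
    simp only [h6]

end Pool.Agent.SOL
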