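import Pool.Agent.helper20.SOL.SpecE

/-!
# Row sol:ME7b: the vectors of norm 32 in the (doubled) `E_7` lattice
-/

set_option autoImplicit false

namespace Pool.Agent.SOL

open Pool.Agent.helper54.SOG Finset

open scoped BigOperators

/-- a checkable form of membership in `R7` -/
def ME7b_rt (a : Vec 8) : Prop :=
  (∀ i j, a i % 2 = a j % 2) ∧
    (a 0 + a 1 + a 2 + a 3 + a 4 + a 5 + a 6 + a 7) % 4 = 0 ∧ a 6 + a 7 = 0 ∧
    a 0 * a 0 + a 1 * a 1 + a 2 * a 2 + a 3 * a 3 + a 4 * a 4 + a 5 * a 5 + a 6 * a 6 +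
      a 7 * a 7 = 8

theorem ME7b_sum (f : Fin 8 → ℤ) : ∑ i, f i = f 0 + f 1 + f 2 + f 3 + f 4 + f 5 + f 6 + f 7 := by
  rw [Fin.sum_univ_eight]

theorem ME7b_dp (a b : Vec 8) : dp a b = a 0 * b 0 + a 1 * b 1 + a 2 * b 2 + a 3 * b 3 + a 4 * b 4 +
    a 5 * b 5 + a 6 * b 6 + a 7 * b 7 := by
  unfold dp
  rw [ME7b_sum]

theorem ME7b_mem {a : Vec 8} (h : ME7b_rt a) : a ∈ R7 ∧ dp a a = 8 := by
  obtain ⟨h1, h2, h3, h4⟩ := h
  have h5 : dp a a = 8 := by rw [ME7b_dp]; exact h4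
  refine ⟨⟨⟨h1, ?_⟩, h3, ?_⟩, h5⟩
  · rw [ME7b_sum]; exact h2
  · rw [h5]; norm_num

/-- the checkable dot product -/
def ME7b_d (a b : Vec 8) : ℤ := a 0 * b 0 + a 1 * b 1 + a 2 * b 2 + a 3 * b 3 + a 4 * b 4 +
    a 5 * b 5 + a 6 * b 6 + a 7 * b 7

instance (a : Vec 8) : Decidable (ME7b_rt a) := by unfold ME7b_rt; infer_instance

theorem ME7b_ve (hCLQ : CLQ_stmt) (L : List (Vec 8)) (y : Vec 8) (h1 : ∀ a ∈ L, ME7b_rt a)
    (h2 : L.Pairwise (fun a b => ME7b_d a b = 0)) (h3 : L.sum = y) (h4 : L.length = 4) :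
    y ∈ VE R7 4 := by
  have h := hCLQ R7 L (fun a ha => ME7b_mem (h1 a ha)) (h2.imp (fun {a b} hab => by
    rw [ME7b_dp]; exact hab))
  rw [h3, h4] at h
  exact h

theorem ME7b_cnt (hCTE : CTE_stmt) {x : Vec 8} (hx : ∀ i, |x i| ≤ 8) :
    cN 6 x 0 + cN 6 x 1 + cN 6 x 2 + cN 6 x 3 + cN 6 x 4 + cN 6 x 5 + cN 6 x 6 + cN 6 x 7 +
      cN 6 x 8 = 6 ∧
    dp x x = cN 6 x 1 + 4 * cN 6 x 2 + 9 * cN 6 x 3 + 16 * cN 6 x 4 + 25 * cN 6 x 5 +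
      36 * cN 6 x 6 + 49 * cN 6 x 7 + 64 * cN 6 x 8 + x 6 * x 6 + x 7 * x 7 := by
  obtain ⟨h1, h2, -, h4⟩ := hCTE 6 x (by norm_num) hx
  rw [h2] at h4
  have h5 : ∑ i ∈ univ.filter (fun i : Fin 8 => ¬ i.val < 6), x i * x i =
      x 6 * x 6 + x 7 * x 7 := by
    have h6 : univ.filter (fun i : Fin 8 => ¬ i.val < 6) = {6, 7} := by decide
    rw [h6, Finset.sum_pair (by decide)]
  rw [h5] at h4
  constructor
  · simpa [Finset.sum_range_succ] using h1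
  · rw [h4]
    simp only [Finset.sum_range_succ, Finset.sum_range_zero]
    push_cast
    ring

theorem ME7b_par {x : Vec 8} (hx : ∀ i j, x i % 2 = x j % 2) {v : ℤ} (hv : x 6 % 2 ≠ v % 2) :
    cN 6 x v = 0 := by
  unfold cN
  rw [Finset.card_eq_zero, Finset.filter_eq_empty_iff]
  rintro i - ⟨-, h⟩
  apply hv
  rw [hx 6 i]
  rcases abs_choice (x i) with h1 | h1 <;> rw [h1] at h <;> omega

theorem ME7b_red (hREP : REP_stmt) (hCTE : CTE_stmt) (hPRD : PRD_stmt) {x : Vec 8} (hx : x ∈ EL)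
    (hxb : ∀ i, |x i| ≤ 8) (y : Vec 8) (k0 k1 k2 k3 k4 k5 k6 k7 k8 : ℕ)
    (hyV : y ∈ VE R7 4) (hy1 : ∀ i j, y i % 2 = y j % 2)
    (hy2 : (y 0 + y 1 + y 2 + y 3 + y 4 + y 5 + y 6 + y 7) % 4 = 0) (hy3 : ∀ i, |y i| ≤ 8)
    (hyc : cN 6 y 0 = k0 ∧ cN 6 y 1 = k1 ∧ cN 6 y 2 = k2 ∧ cN 6 y 3 = k3 ∧ cN 6 y 4 = k4 ∧
      cN 6 y 5 = k5 ∧ cN 6 y 6 = k6 ∧ cN 6 y 7 = k7 ∧ cN 6 y 8 = k8)
    (h6 : x 6 = y 6) (h7 : x 7 = y 7)
    (hxc : cN 6 x 0 = k0 ∧ cN 6 x 1 = k1 ∧ cN 6 x 2 = k2 ∧ cN 6 x 3 = k3 ∧ cN 6 x 4 = k4 ∧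
      cN 6 x 5 = k5 ∧ cN 6 x 6 = k6 ∧ cN 6 x 7 = k7 ∧ cN 6 x 8 = k8)
    (hp : y 0 % 2 = 1 ∨ 0 < k0 ∨ pN 6 x = pN 6 y) : x ∈ VE R7 4 := by
  have hyE : y ∈ EL := ⟨hy1, by rw [ME7b_sum]; exact hy2⟩
  have hcx := (hCTE 6 x (by norm_num) hxb).2.2.1
  have hcy := (hCTE 6 y (by norm_num) hy3).2.2.1
  obtain ⟨a0, a1, a2, a3, a4, a5, a6, a7, a8⟩ := hyc
  obtain ⟨b0, b1, b2, b3, b4, b5, b6, b7, b8⟩ := hxc
  have hc : ∀ v : ℤ, cN 6 x v = cN 6 y v := by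
    intro v
    by_cases hv : v < 0 ∨ 8 < v
    · rw [hcx v hv, hcy v hv]
    · have h : v = 0 ∨ v = 1 ∨ v = 2 ∨ v = 3 ∨ v = 4 ∨ v = 5 ∨ v = 6 ∨ v = 7 ∨ v = 8 := by omega
      rcases h with rfl | rfl | rfl | rfl | rfl | rfl | rfl | rfl | rfl
      · rw [a0, b0]
      · rw [a1, b1]
      · rw [a2, b2]
      · rw [a3, b3]
      · rw [a4, b4]
      · rw [a5, b5]
      · rw [a6, b6]
      · rw [a7, b7]
      · rw [a8, b8]
  have hge : ∀ i : Fin 8, 6 ≤ i.val → x i = y i := by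
    intro i hi
    have h : i = 6 ∨ i = 7 := by
      have := i.isLt
      rcases (show i.val = 6 ∨ i.val = 7 by omega) with h | h
      · exact Or.inl (Fin.ext h)
      · exact Or.inr (Fin.ext h)
    rcases h with rfl | rfl
    · exact h6
    · exact h7
  refine (hREP 4 x y).2.1 hge hc ?_ hyV
  rcases hp with h | h | h
  · refine hPRD.1 6 x y (Or.inr (Or.inl rfl)) hx hyE ?_ hge hc
    rw [hx.1 0 6, h6, hy1 6 0]
    exact h
  · obtain ⟨h1, h2⟩ := hPRD.2.1 6 x y hc (by rw [b0]; exact h)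
    rw [h1, h2]
  · exact h

theorem ME7b_main (hREP : REP_stmt) (hCTE : CTE_stmt) (hPRD : PRD_stmt) (hCLQ : CLQ_stmt)
    {x : Vec 8} (hx : x ∈ EL) (hx7 : x 6 + x 7 = 0) (hd : dp x x = 32) (ha : 0 ≤ x 6) :
    x ∈ VE R7 4 := by
  have hb : ∀ i, |x i| ≤ 8 := by
    intro i
    have h1 : x i * x i ≤ dp x x := Finset.single_le_sum (f := fun i => x i * x i)
      (fun j _ => mul_self_nonneg (x j)) (Finset.mem_univ i)
    rw [hd] at h1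
    apply abs_le.2
    constructor <;> nlinarith
  obtain ⟨h1, h2⟩ := ME7b_cnt hCTE hb
  have h7 : x 7 = - x 6 := by omega
  rw [hd, h7, neg_mul_neg] at h2
  have ha4 : x 6 ≤ 4 := by nlinarith
  have hsq : 0 ≤ x 6 * x 6 := mul_self_nonneg _
  have q8 : cN 6 x 8 = 0 := by omega
  have q7 : cN 6 x 7 = 0 := by omega
  have q6 : cN 6 x 6 = 0 := by omega
  clear hsq
  have hpar : ∀ v : ℤ, x 6 % 2 ≠ v % 2 → cN 6 x v = 0 := fun v hv => ME7b_par hx.1 hv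
  rcases (show x 6 = 0 ∨ x 6 = 1 ∨ x 6 = 2 ∨ x 6 = 3 ∨ x 6 = 4 by omega) with
    h6 | h6 | h6 | h6 | h6 <;> rw [h6] at h2 h7 hpar
  · have p1 := hpar 1 (by decide)
    have p3 := hpar 3 (by decide)
    have p5 := hpar 5 (by decide)
    rcases (show cN 6 x 4 = 1 ∨ cN 6 x 4 = 2 by omega) with c4 | c4
    · exact ME7b_red hREP hCTE hPRD hx hb ![4,2,2,2,2,0,0,0] 1 0 4 0 1 0 0 0 0
        (ME7b_ve hCLQ [![2,0,0,0,0,2,0,0], ![2,0,0,0,0,-2,0,0], ![0,2,2,0,0,0,0,0],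
          ![0,0,0,2,2,0,0,0]] _ (by decide) (by decide) (by decide) rfl)
        (by decide) (by decide) (by decide) (by decide) h6 h7
        (by refine ⟨?_, ?_, ?_, ?_, ?_, ?_, ?_, ?_, ?_⟩ <;> omega) (Or.inr (Or.inl (by norm_num)))
    · exact ME7b_red hREP hCTE hPRD hx hb ![4,4,0,0,0,0,0,0] 4 0 0 0 2 0 0 0 0
        (ME7b_ve hCLQ [![2,0,2,0,0,0,0,0], ![2,0,-2,0,0,0,0,0], ![0,2,0,2,0,0,0,0],
          ![0,2,0,-2,0,0,0,0]] _ (by decide) (by decide) (by decide) rfl)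
        (by decide) (by decide) (by decide) (by decide) h6 h7
        (by refine ⟨?_, ?_, ?_, ?_, ?_, ?_, ?_, ?_, ?_⟩ <;> omega) (Or.inr (Or.inl (by norm_num)))
  · have p0 := hpar 0 (by decide)
    have p2 := hpar 2 (by decide)
    have p4 := hpar 4 (by decide)
    rcases (show cN 6 x 5 = 0 ∨ cN 6 x 5 = 1 by omega) with c5 | c5
    · exact ME7b_red hREP hCTE hPRD hx hb ![3,3,3,1,1,1,1,-1] 0 3 0 3 0 0 0 0 0
        (ME7b_ve hCLQ [![2,0,0,2,0,0,0,0], ![0,2,0,0,2,0,0,0], ![0,0,2,0,0,2,0,0],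
          ![1,1,1,-1,-1,-1,1,-1]] _ (by decide) (by decide) (by decide) rfl)
        (by decide) (by decide) (by decide) (by decide) h6 h7
        (by refine ⟨?_, ?_, ?_, ?_, ?_, ?_, ?_, ?_, ?_⟩ <;> omega) (Or.inl (by decide))
    · exact ME7b_red hREP hCTE hPRD hx hb ![5,1,1,1,1,-1,1,-1] 0 5 0 0 0 1 0 0 0
        (ME7b_ve hCLQ [![2,-2,0,0,0,0,0,0], ![1,1,1,1,1,-1,-1,1], ![1,1,1,1,-1,1,1,-1],
          ![1,1,-1,-1,1,-1,1,-1]] _ (by decide) (by decide) (by decide) rfl)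
        (by decide) (by decide) (by decide) (by decide) h6 h7
        (by refine ⟨?_, ?_, ?_, ?_, ?_, ?_, ?_, ?_, ?_⟩ <;> omega) (Or.inl (by decide))
  · have p1 := hpar 1 (by decide)
    have p3 := hpar 3 (by decide)
    have p5 := hpar 5 (by decide)
    rcases (show cN 6 x 4 = 0 ∨ cN 6 x 4 = 1 by omega) with c4 | c4
    · have hxc : cN 6 x 0 = 0 ∧ cN 6 x 1 = 0 ∧ cN 6 x 2 = 6 ∧ cN 6 x 3 = 0 ∧ cN 6 x 4 = 0 ∧
          cN 6 x 5 = 0 ∧ cN 6 x 6 = 0 ∧ cN 6 x 7 = 0 ∧ cN 6 x 8 = 0 := by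
        refine ⟨?_, ?_, ?_, ?_, ?_, ?_, ?_, ?_, ?_⟩ <;> omega
      have hpr : pN 6 x = 64 ∨ pN 6 x = -64 := by
        have hcx := (hCTE 6 x (by norm_num) hb).2.2.1
        have hcy := (hCTE 6 ![2,2,2,2,2,2,2,-2] (by norm_num) (by decide)).2.2.1
        have hyc : cN 6 ![2,2,2,2,2,2,2,-2] 0 = 0 ∧ cN 6 ![2,2,2,2,2,2,2,-2] 1 = 0 ∧
          cN 6 ![2,2,2,2,2,2,2,-2] 2 = 6 ∧ cN 6 ![2,2,2,2,2,2,2,-2] 3 = 0 ∧
          cN 6 ![2,2,2,2,2,2,2,-2] 4 = 0 ∧ cN 6 ![2,2,2,2,2,2,2,-2] 5 = 0 ∧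
          cN 6 ![2,2,2,2,2,2,2,-2] 6 = 0 ∧ cN 6 ![2,2,2,2,2,2,2,-2] 7 = 0 ∧
          cN 6 ![2,2,2,2,2,2,2,-2] 8 = 0 := by decide
        obtain ⟨a0, a1, a2, a3, a4, a5, a6, a7, a8⟩ := hyc
        obtain ⟨b0, b1, b2, b3, b4, b5, b6, b7, b8⟩ := hxc
        have hc : ∀ v : ℤ, cN 6 x v = cN 6 ![2,2,2,2,2,2,2,-2] v := by
          intro v
          by_cases hv : v < 0 ∨ 8 < v
          · rw [hcx v hv, hcy v hv]
          · have h : v = 0 ∨ v = 1 ∨ v = 2 ∨ v = 3 ∨ v = 4 ∨ v = 5 ∨ v = 6 ∨ v = 7 ∨ v = 8 := by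
              omega
            rcases h with rfl | rfl | rfl | rfl | rfl | rfl | rfl | rfl | rfl
            · rw [a0, b0]
            · rw [a1, b1]
            · rw [a2, b2]
            · rw [a3, b3]
            · rw [a4, b4]
            · rw [a5, b5]
            · rw [a6, b6]
            · rw [a7, b7]
            · rw [a8, b8]
        have hpy : pN 6 ![2,2,2,2,2,2,2,-2] = 64 := by decide
        have h := hPRD.2.2 6 x ![2,2,2,2,2,2,2,-2] hc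
        rw [hpy] at h
        exact h
      rcases hpr with hpr | hpr
      · exact ME7b_red hREP hCTE hPRD hx hb ![2,2,2,2,2,2,2,-2] 0 0 6 0 0 0 0 0 0
          (ME7b_ve hCLQ [![2,2,0,0,0,0,0,0], ![0,0,2,2,0,0,0,0], ![0,0,0,0,2,2,0,0],
            ![0,0,0,0,0,0,2,-2]] _ (by decide) (by decide) (by decide) rfl)
          (by decide) (by decide) (by decide) (by decide) h6 h7 hxc
          (Or.inr (Or.inr (hpr.trans (by decide))))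
      · exact ME7b_red hREP hCTE hPRD hx hb ![2,2,2,2,2,-2,2,-2] 0 0 6 0 0 0 0 0 0
          (ME7b_ve hCLQ [![2,2,0,0,0,0,0,0], ![0,0,2,2,0,0,0,0], ![0,0,0,0,2,-2,0,0],
            ![0,0,0,0,0,0,2,-2]] _ (by decide) (by decide) (by decide) rfl)
          (by decide) (by decide) (by decide) (by decide) h6 h7 hxc
          (Or.inr (Or.inr (hpr.trans (by decide))))
    · exact ME7b_red hREP hCTE hPRD hx hb ![4,2,2,0,0,0,2,-2] 3 0 2 0 1 0 0 0 0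
        (ME7b_ve hCLQ [![2,0,0,2,0,0,0,0], ![2,0,0,-2,0,0,0,0], ![0,2,2,0,0,0,0,0],
          ![0,0,0,0,0,0,2,-2]] _ (by decide) (by decide) (by decide) rfl)
        (by decide) (by decide) (by decide) (by decide) h6 h7
        (by refine ⟨?_, ?_, ?_, ?_, ?_, ?_, ?_, ?_, ?_⟩ <;> omega) (Or.inr (Or.inl (by norm_num)))
  · have p0 := hpar 0 (by decide)
    have p2 := hpar 2 (by decide)
    have p4 := hpar 4 (by decide)
    exact ME7b_red hREP hCTE hPRD hx hb ![3,1,1,1,1,1,3,-3] 0 5 0 1 0 0 0 0 0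
      (ME7b_ve hCLQ [![2,2,0,0,0,0,0,0], ![1,-1,1,1,-1,-1,1,-1], ![1,-1,-1,-1,1,1,1,-1],
        ![-1,1,1,1,1,1,1,-1]] _ (by decide) (by decide) (by decide) rfl)
      (by decide) (by decide) (by decide) (by decide) h6 h7
      (by refine ⟨?_, ?_, ?_, ?_, ?_, ?_, ?_, ?_, ?_⟩ <;> omega) (Or.inl (by decide))
  · have p1 := hpar 1 (by decide)
    have p3 := hpar 3 (by decide)
    have p5 := hpar 5 (by decide)
    exact ME7b_red hREP hCTE hPRD hx hb ![0,0,0,0,0,0,4,-4] 6 0 0 0 0 0 0 0 0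
      (ME7b_ve hCLQ [![1,1,1,1,1,-1,1,-1], ![1,1,-1,-1,-1,1,1,-1], ![-1,-1,1,1,-1,1,1,-1],
        ![-1,-1,-1,-1,1,-1,1,-1]] _ (by decide) (by decide) (by decide) rfl)
      (by decide) (by decide) (by decide) (by decide) h6 h7
      (by refine ⟨?_, ?_, ?_, ?_, ?_, ?_, ?_, ?_, ?_⟩ <;> omega) (Or.inr (Or.inl (by norm_num)))

theorem ME7b (hREP : REP_stmt) (hCTE : CTE_stmt) (hPRD : PRD_stmt) (hCLQ : CLQ_stmt)
    (hELB : ELB_stmt) : ME7b_stmt := by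
  intro x hx
  obtain ⟨hE, h67, hd⟩ := hx
  have hd' : dp x x = 32 := by rw [hd]; norm_num
  rcases le_total 0 (x 6) with h | h
  · exact ME7b_main hREP hCTE hPRD hCLQ hE h67 hd' h
  · have hneg : -x ∈ EL := (hELB.1 x x hE hE).2.2
    have h1 : (-x) 6 + (-x) 7 = 0 := by
      show -(x 6) + -(x 7) = 0
      omega
    have h2 : dp (-x) (-x) = 32 := by
      rw [← hd']
      unfold dp
      refine Finset.sum_congr rfl fun i _ => ?_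
      show -(x i) * -(x i) = x i * x i
      ring
    have h3 : (-x) ∈ VE R7 4 := ME7b_main hREP hCTE hPRD hCLQ hneg h1 h2 (by
      show 0 ≤ -(x 6)
      omega)
    have h4 := (hELB.2.2.2.1 4 (-x)).2.1 h3
    rwa [neg_neg] at h4

end Pool.Agent.SOL
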